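import Pool.Agent.X119.Mil
import Pool.Agent.H426R3.SQ.Lin2

/-!
# Record gaps around all the numbers `N_n = ⌊θ ^ (c ^ n)⌋` of a sequence and around their squares

For every real `c > 1` the `θ > 1` such that for all large `n` neither `N_n` nor `N_n ^ 2` has a prime within
`κ f(N_n)`, `f` the record size of prime gaps, have Hausdorff dimension at least `s(κ)` in each open set that meets
`(1, ∞)`, with `s(κ) → 1` as `κ → 0`; with `κ` depending on `θ` the dimension is `1`. So the intervals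
`(n ^ 2, n ^ 2 + (log n / log 2) ^ 2]` of the question contain no prime near their left end points, to a distance of
record size, along whole doubly exponential sequences `n = N_1, N_2, …`.

The input for one number is the starting result `NumberAndSquare`; the Cantor set argument is `Pool.Agent.X10.ML` (helper10).
-/

set_option autoImplicit false

open Filter

namespace Pool.Agent.Results.MP_73869e_nt.MillsSequences

/-- The record scale `f(x) = log x (log₂ x)² log₄ x / (log₃ x)²` (iterated natural logarithms). -/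
noncomputable def f (x : ℝ) : ℝ :=
  Real.log x * (Real.log (Real.log x)) ^ 2 * Real.log (Real.log (Real.log (Real.log x))) /
    (Real.log (Real.log (Real.log x))) ^ 2

/-- No prime is at distance at most `κ f(m)` from `m`, or from `m ^ 2`. -/
def PrimeFree (κ : ℝ) (m : ℕ) : Prop :=
  ∀ q : ℕ, q.Prime → κ * f m < |(q : ℝ) - m| ∧ κ * f m < |(q : ℝ) - (m : ℝ) ^ 2|

/-- Record gaps around all the numbers of a sequence and around their squares. -/
theorem result (c : ℝ) (hc : 1 < c) :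
    (∀ s : ℝ, s < 1 → ∃ κ : ℝ, 0 < κ ∧ ∀ U : Set ℝ, IsOpen U → (U ∩ Set.Ioi 1).Nonempty →
      ENNReal.ofReal s ≤ dimH {θ : ℝ | θ ∈ U ∧ 1 < θ ∧ ∃ N : ℕ, ∀ n : ℕ, N ≤ n →
        PrimeFree κ ⌊θ ^ (c ^ n)⌋₊}) ∧
    ∀ U : Set ℝ, IsOpen U → (U ∩ Set.Ioi 1).Nonempty →
      dimH {θ : ℝ | θ ∈ U ∧ 1 < θ ∧ ∃ κ : ℝ, 0 < κ ∧ ∃ N : ℕ, ∀ n : ℕ, N ≤ n →
        PrimeFree κ ⌊θ ^ (c ^ n)⌋₊} = 1 := by
  obtain ⟨c₀, hc₀, Y₀, h⟩ := Pool.Agent.H426R3.SQ.number_square_main
  apply Pool.Agent.X119.Mil.mills_const c hc PrimeFree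
  intro a ha ha1
  obtain ⟨X₁, hX₁4, hX₁⟩ := Pool.Agent.X119.Mil.scale a ha ha1
  obtain ⟨X₂, hX₂⟩ := eventually_atTop.1 ((tendsto_rpow_atTop ha).eventually_ge_atTop Y₀)
  refine ⟨c₀ * (a / 2 / 8), by positivity, max X₁ X₂, fun X hX z hz1 hz2 => ?_⟩
  have hX1 : X₁ ≤ X := (le_max_left _ _).trans hX
  have hX4 : 4 ≤ X := hX₁4.trans hX1
  have hY : Y₀ ≤ X ^ a := hX₂ X ((le_max_right _ _).trans hX)
  have hYX : X ^ a ≤ X := (hX₁ X hX1 X le_rfl (by linarith)).1
  obtain ⟨m, hm1, hm2, hm3⟩ := h (X ^ a) hY z (hYX.trans hz1)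
  have hm1r : (z : ℝ) < m := by exact_mod_cast hm1
  obtain ⟨-, -, -, g4, -⟩ := hX₁ X hX1 m (by linarith) (by linarith)
  have key : c₀ * (a / 2 / 8) * f m ≤ c₀ * Pool.Agent.X119.Mil.rec (X ^ a) := by
    rw [mul_assoc]
    exact mul_le_mul_of_nonneg_left g4 hc₀.le
  refine ⟨m, fun q hq => ?_, hm1, hm2⟩
  obtain ⟨t1, t2⟩ := hm3 q hq
  exact ⟨lt_of_le_of_lt key t1, lt_of_le_of_lt key t2⟩

end Pool.Agent.Results.MP_73869e_nt.MillsSequences
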