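import Pool.Agent.X31.S14
import Pool.Agent.X31.S2

/-!
# Few translates of the primes, by integers near
# the values of polynomials at integers with missing digits

`f` is an arbitrary real polynomial of degree `d ≥ 2` (only the size of the leading coefficient is restricted), `C` is the
set of the integers with `m` digits in base `b` whose digit at `b ^ j` is in `𝒟 j`, where the sets `𝒟 j` of allowed
digits are arbitrary with at least TWO elements (for instance: the integers with the decimal digits `0` and `1` only;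
such sets can be as thin as `N ^ ε`).
For each element `n` of an ARBITRARY dense subset `M` of `C` let `s(n)` be an arbitrary integer within `log ^ D N` of the value at `n`.
For almost all vectors `(n_1, ..., n_r)` of elements of `M`, all the integers `a ≤ N`, with at most
`max ((3/4 + ε) ^ r, 1 / log ^ U N) N` exceptions, have a prime in one of the `r` intervals
`(a + s(n_i), a + s(n_i) + log ^ K N]`. So `O(log (1 / δ))` values are enough for all but `δ N` of the `a`, and
`O(log log N)` values are enough for all but `N / log ^ U N` of them.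
With `f(n) = n ^ 2` these are intervals to the right of `a + n ^ 2`, where `n` has missing digits.

The minimal real additive energy of the values of polynomials at the integers with missing digits is from
`Pool.Agent.X31.K1` - `K9` (in this run);
the greedy argument for families of small energy is from `Pool.Agent.X10.ST` (helper10, `MP_711652_nt.FewThinTranslates`);
it rests on the starting theorem for one translate (`Pool.Agent.TH646.TT.cnt_full`).
-/

set_option autoImplicit false

namespace Pool.Agent.Results.MP_73869e_nt.MissingDigitTranslates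

open Finset
open scoped Polynomial

/-- the integers `0 ≤ n < b ^ m` whose digit at `b ^ j` in base `b` is in `𝒟 j`, for all `j < m` -/
def Digits (b : ℕ) (𝒟 : ℕ → Finset ℕ) (m : ℕ) : Finset ℕ :=
  (range (b ^ m)).filter (fun n => ∀ j < m, n / b ^ j % b ∈ 𝒟 j)

/-- `M` is a subset with at least `#(Digits b 𝒟 m) / log ^ D N` elements of the set `Digits b 𝒟 m`, where all sets `𝒟 j`
of allowed digits have at least two elements; `f` is a real polynomial of degree at most `d`, the coefficient of `x ^ d`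
is at most `log ^ D N` and at least `N / (b ^ (d m) log ^ D N)` in absolute value, and `|f| ≤ N` on `M`. -/
def Fam (b d D N m : ℕ) (𝒟 : ℕ → Finset ℕ) (f : ℝ[X]) (M : Finset ℕ) : Prop :=
  (∀ j, 𝒟 j ⊆ range b ∧ 2 ≤ (𝒟 j).card) ∧
  f.natDegree ≤ d ∧ |f.coeff d| ≤ Real.log N ^ D ∧ (N : ℝ) / Real.log N ^ D ≤ |f.coeff d| * (b : ℝ) ^ (d * m) ∧
  M ⊆ Digits b 𝒟 m ∧ ((Digits b 𝒟 m).card : ℝ) / Real.log N ^ D ≤ M.card ∧ ∀ n ∈ M, |f.eval (n : ℝ)| ≤ N

open Classical in
/-- the number of the `a` in `{1, ..., N}` such that none of the intervals `(a + t i, a + t i + y]` contains a prime -/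
noncomputable def missed (N y : ℕ) {r : ℕ} (t : Fin r → ℕ) : ℕ :=
  ((Icc 1 N).filter (fun a : ℕ => ∀ i, ¬ ∃ q : ℕ, q.Prime ∧ a + t i < q ∧ q ≤ a + t i + y)).card

lemma dat_of {b d D N m : ℕ} {𝒟 : ℕ → Finset ℕ} {f : ℝ[X]} {M : Finset ℕ} (h : Fam b d D N m 𝒟 f M) :
    Pool.Agent.X31.CT.Dat b d D N m 𝒟 f M :=
  ⟨h.1, h.2.1, h.2.2.1, h.2.2.2.1, h.2.2.2.2.1, h.2.2.2.2.2.1, h.2.2.2.2.2.2⟩

/-- Let `b, d ≥ 2` be integers. Let `D`, `U` be natural numbers and `0 < ε ≤ 1 / 4`. There are `K` and `N₀` such that for all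
`N ≥ N₀`, all numbers `m` of digits, ALL sets `𝒟 j` of allowed digits, ALL
real polynomials `f` and all sets `M` with `Fam b d D N m 𝒟 f M`, and all
numbers `s(n)` with `1 ≤ s(n) ≤ N` and `|s(n) - f.eval (n : ℝ)| ≤ log ^ D N` (`n ∈ M`): for every `r`, all vectors
`(v 1, ..., v r)` of elements of `M`, with at most `r (#M) ^ r / log ^ U N` exceptions, are such that all but at most
`max ((3/4 + ε) ^ r, 1 / log ^ U N) N` of the `a ≤ N` have a prime in one of the intervals
`(a + s(v i), a + s(v i) + ⌈log ^ K N⌉]`. -/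
theorem result (b d : ℕ) (hb : 2 ≤ b) (hd : 2 ≤ d) (D U : ℕ) (ε : ℝ) (hε : 0 < ε) (hε1 : ε ≤ 1 / 4) :
    ∃ K N₀ : ℕ, ∀ N : ℕ, N₀ ≤ N →
      ∀ (m : ℕ) (𝒟 : ℕ → Finset ℕ) (f : ℝ[X]) (M : Finset ℕ), Fam b d D N m 𝒟 f M →
      ∀ s : ℕ → ℕ, (∀ n ∈ M, 1 ≤ s n ∧ s n ≤ N ∧ |(s n : ℝ) - f.eval (n : ℝ)| ≤ Real.log N ^ D) → ∀ r : ℕ,
      ∃ E : Finset (Fin r → ℕ), (E.card : ℝ) ≤ r * (M.card : ℝ) ^ r / Real.log N ^ U ∧
        ∀ v : Fin r → ℕ, (∀ i, v i ∈ M) → v ∉ E →
          (missed N ⌈Real.log N ^ K⌉₊ (fun i => s (v i)) : ℝ) ≤ N * max ((3 / 4 + ε) ^ r) (1 / Real.log N ^ U) := by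
  obtain ⟨K, N₀, h0⟩ := (Pool.Agent.X31.Sch_dg hb hd).few D U ε hε hε1
  refine ⟨K, N₀, fun N hN m 𝒟 f M hfam s hs r => ?_⟩
  exact h0 N hN M (fun n => f.eval (n : ℝ)) ⟨m, 𝒟, f, dat_of hfam, fun _ => rfl⟩ s hs r

end Pool.Agent.Results.MP_73869e_nt.MissingDigitTranslates
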