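import Pool.Agent.X31.S14
import Pool.Agent.X31.R3

/-!
# Few translates of the primes, by integers near
# the values of real powers and generalised polynomials at integers with missing digits

`f(t) = ∑ u_x t ^ x` is an arbitrary finite real combination of real powers of `t` whose largest exponent `c > 0` is not
an integer (for instance `t ^ {3/2}`, or `t ^ {1/10}`), `C` is the set of the integers with `m` digits in base `b` whose
digit at `b ^ j` is in `𝒟 j`, where the sets `𝒟 j` of allowed digits are arbitrary with at least TWO elements (for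
instance: the integers with the decimal digits `0` and `1` only; such sets can be as thin as `N ^ ε`). The values
considered are `b₀ + θ f(n)`, `n ∈ C`.
For each element `n` of an ARBITRARY dense subset `M` of `C` let `s(n)` be an arbitrary integer within `log ^ D N` of the value at `n`.
For almost all vectors `(n_1, ..., n_r)` of elements of `M`, all the integers `a ≤ N`, with at most
`max ((3/4 + ε) ^ r, 1 / log ^ U N) N` exceptions, have a prime in one of the `r` intervals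
`(a + s(n_i), a + s(n_i) + log ^ K N]`. So `O(log (1 / δ))` values are enough for all but `δ N` of the `a`, and
`O(log log N)` values are enough for all but `N / log ^ U N` of them.
Such values include the integers near `(n ^ c) ^ 2`, where `n` has missing digits and `2 c` is not an integer.

The minimal real additive energy of these values is from `Pool.Agent.X31.R1` - `R3` (in this run);
the greedy argument for families of small energy is from `Pool.Agent.X10.ST` (helper10, `MP_711652_nt.FewThinTranslates`);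
it rests on the starting theorem for one translate (`Pool.Agent.TH646.TT.cnt_full`).
-/

set_option autoImplicit false

namespace Pool.Agent.Results.MP_73869e_nt.PowerTranslates

open Finset

/-- the integers `0 ≤ n < b ^ m` whose digit at `b ^ j` in base `b` is in `𝒟 j`, for all `j < m` -/
def Digits (b : ℕ) (𝒟 : ℕ → Finset ℕ) (m : ℕ) : Finset ℕ :=
  (range (b ^ m)).filter (fun n => ∀ j < m, n / b ^ j % b ∈ 𝒟 j)

/-- the generalised polynomial with the exponents `x ∈ F` and the coefficients `u x` -/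
noncomputable def f (F : Finset ℝ) (u : ℝ → ℝ) (t : ℝ) : ℝ := ∑ x ∈ F, u x * t ^ x

/-- `M` is a subset with at least `#(Digits b 𝒟 m) / log ^ D N` elements of the set `Digits b 𝒟 m`, where all sets `𝒟 j`
of allowed digits have at least two elements; the number `θ` is at most `log ^ D N` and at least
`N / (b ^ (c m) log ^ D N)` in absolute value, and `|b₀ + θ f(n)| ≤ N` for all `n ∈ M`. -/
def Fam (b : ℕ) (F : Finset ℝ) (u : ℝ → ℝ) (c : ℝ) (D N m : ℕ) (𝒟 : ℕ → Finset ℕ) (θ b₀ : ℝ) (M : Finset ℕ) : Prop :=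
  (∀ j, 𝒟 j ⊆ range b ∧ 2 ≤ (𝒟 j).card) ∧
  |θ| ≤ Real.log N ^ D ∧ (N : ℝ) / Real.log N ^ D ≤ |θ| * ((b : ℝ) ^ m) ^ c ∧
  M ⊆ Digits b 𝒟 m ∧ ((Digits b 𝒟 m).card : ℝ) / Real.log N ^ D ≤ M.card ∧ ∀ n ∈ M, |b₀ + θ * f F u n| ≤ N

open Classical in
/-- the number of the `a` in `{1, ..., N}` such that none of the intervals `(a + t i, a + t i + y]` contains a prime -/
noncomputable def missed (N y : ℕ) {r : ℕ} (t : Fin r → ℕ) : ℕ :=
  ((Icc 1 N).filter (fun a : ℕ => ∀ i, ¬ ∃ q : ℕ, q.Prime ∧ a + t i < q ∧ q ≤ a + t i + y)).card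

lemma dat_of {b : ℕ} {F : Finset ℝ} {u : ℝ → ℝ} {c : ℝ} {D N m : ℕ} {𝒟 : ℕ → Finset ℕ} {θ b₀ : ℝ} {M : Finset ℕ}
    (h : Fam b F u c D N m 𝒟 θ b₀ M) :
    Pool.Agent.X31.CT.Dat3 b c D N m 𝒟 θ b₀ (fun n => Pool.Agent.X31.gp F u n) M :=
  ⟨h.1, h.2.1, h.2.2.1, h.2.2.2.1, h.2.2.2.2.1, h.2.2.2.2.2⟩

/-- Let `b ≥ 2` be an integer, let `F` be a finite set of real numbers whose maximum `c > 0` is NOT an integer,
`u c ≠ 0`, and `f(t) = ∑_{x ∈ F} u x * t ^ x`. Let `D`, `U` be natural numbers and `0 < ε ≤ 1 / 4`. There are `K` and `N₀` such that for all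
`N ≥ N₀`, all numbers `m` of digits, ALL sets `𝒟 j` of allowed digits, all
real `θ`, `b₀` and all sets `M` with `Fam b F u c D N m 𝒟 θ b₀ M`, and all
numbers `s(n)` with `1 ≤ s(n) ≤ N` and `|s(n) - (b₀ + θ * f F u n)| ≤ log ^ D N` (`n ∈ M`): for every `r`, all vectors
`(v 1, ..., v r)` of elements of `M`, with at most `r (#M) ^ r / log ^ U N` exceptions, are such that all but at most
`max ((3/4 + ε) ^ r, 1 / log ^ U N) N` of the `a ≤ N` have a prime in one of the intervals
`(a + s(v i), a + s(v i) + ⌈log ^ K N⌉]`. -/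
theorem result (b : ℕ) (hb : 2 ≤ b) (F : Finset ℝ) (u : ℝ → ℝ) (c : ℝ) (hcF : c ∈ F)
    (hmax : ∀ x ∈ F, x ≤ c) (huc : u c ≠ 0) (hc : 0 < c) (hcn : ∀ k : ℕ, c ≠ k) (D U : ℕ) (ε : ℝ) (hε : 0 < ε) (hε1 : ε ≤ 1 / 4) :
    ∃ K N₀ : ℕ, ∀ N : ℕ, N₀ ≤ N →
      ∀ (m : ℕ) (𝒟 : ℕ → Finset ℕ) (θ b₀ : ℝ) (M : Finset ℕ), Fam b F u c D N m 𝒟 θ b₀ M →
      ∀ s : ℕ → ℕ, (∀ n ∈ M, 1 ≤ s n ∧ s n ≤ N ∧ |(s n : ℝ) - (b₀ + θ * f F u n)| ≤ Real.log N ^ D) → ∀ r : ℕ,
      ∃ E : Finset (Fin r → ℕ), (E.card : ℝ) ≤ r * (M.card : ℝ) ^ r / Real.log N ^ U ∧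
        ∀ v : Fin r → ℕ, (∀ i, v i ∈ M) → v ∉ E →
          (missed N ⌈Real.log N ^ K⌉₊ (fun i => s (v i)) : ℝ) ≤ N * max ((3 / 4 + ε) ^ r) (1 / Real.log N ^ U) := by
  obtain ⟨K, N₀, h0⟩ := (Pool.Agent.X31.Sch_rp hb F u c hcF hmax huc hc hcn).few D U ε hε hε1
  refine ⟨K, N₀, fun N hN m 𝒟 θ b₀ M hfam s hs r => ?_⟩
  exact h0 N hN M (fun n => (b₀ + θ * f F u n)) ⟨m, 𝒟, θ, b₀, dat_of hfam, fun _ => rfl⟩ s hs r

end Pool.Agent.Results.MP_73869e_nt.PowerTranslates
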