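import Pool.Agent.X67.QS.Fam

set_option autoImplicit false

namespace Pool.Agent.Results.MP_73869e_nt.SquaresOfResidues

open Finset Polynomial
open Pool.Agent.X67.QS

/-- **Empty intervals of record length after `n²` (and around `n`), with `n` in a structured set of
residues modulo a prime.** Let `k` and `ε > 0`. There are `c > 0` and `p₀` such that for all primes
`p ≥ p₀` the following holds, where `f(p) = log p (log₂ p)² log₄ p / (log₃ p)²` is the order of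
magnitude of the records; residues modulo `p` are taken in `{0, …, p - 1}`.

(1) Let `F` be a polynomial of degree between `1` and `k` over the field with `p` elements, and let
`S` and `B` be sets of residues with `|B| ≤ |S|` and `|S| |B| ≥ p ^ (1 + ε)`, such that every `b` in
`B` is nonzero and all but `p ^ (-ε) |S|` elements of `S` lie in `b S`. Then there is an `x` in `S`
such that for the residue `n` of `F(x)` no prime is within distance `c f(p)` of `n`, and no prime is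
within distance `c f(p)` of `n²`.

(2) The same holds for `S = {a, a θ, …, a θ ^ (M - 1)}`, `a ≠ 0`, when `p ^ (1/2 + ε) ≤ M` and `M`
is at most the order of `θ` modulo `p`.

(3) If the order `T` of `θ` is at least `p ^ (3/8 + ε)` then, for all `b` and all `a ≠ 0`, the same
holds for the residue `n` of `b + a θ ^ l` for some `l < T`. -/
theorem result (k : ℕ) (ε : ℝ) (hε : 0 < ε) : ∃ c : ℝ, 0 < c ∧ ∃ p₀ : ℕ,
    ∀ (p : ℕ) [Fact p.Prime], p₀ ≤ p → ∀ R : ℝ,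
    R ≤ c * (Real.log p * (Real.log (Real.log p)) ^ 2 *
      Real.log (Real.log (Real.log (Real.log p))) / (Real.log (Real.log (Real.log p))) ^ 2) →
    (∀ (S B : Finset (ZMod p)) (F : (ZMod p)[X]), 1 ≤ F.natDegree → F.natDegree ≤ k →
      B.card ≤ S.card → (p : ℝ) ^ (1 + ε) ≤ S.card * B.card →
      (∀ b ∈ B, b ≠ 0 ∧
        ((S \ S.image (fun x => b * x)).card : ℝ) ≤ (p : ℝ) ^ (-ε) * S.card) →
      ∃ x ∈ S, ∀ q : ℕ, q.Prime →
        R < |(q : ℝ) - ((F.eval x).val : ℝ)| ∧ R < |(q : ℝ) - ((F.eval x).val : ℝ) ^ 2|) ∧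
    (∀ (θ a : ZMod p) (M : ℕ) (F : (ZMod p)[X]), 1 ≤ F.natDegree → F.natDegree ≤ k →
      θ ≠ 0 → a ≠ 0 → M ≤ orderOf θ → (p : ℝ) ^ (1 / 2 + ε) ≤ M →
      ∃ l : ℕ, l < M ∧ ∀ q : ℕ, q.Prime →
        R < |(q : ℝ) - ((F.eval (a * θ ^ l)).val : ℝ)| ∧
        R < |(q : ℝ) - ((F.eval (a * θ ^ l)).val : ℝ) ^ 2|) ∧
    (∀ θ a b : ZMod p, θ ≠ 0 → a ≠ 0 → (p : ℝ) ^ (3 / 8 + ε) ≤ orderOf θ →
      ∃ l : ℕ, l < orderOf θ ∧ ∀ q : ℕ, q.Prime →
        R < |(q : ℝ) - ((b + a * θ ^ l).val : ℝ)| ∧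
        R < |(q : ℝ) - ((b + a * θ ^ l).val : ℝ) ^ 2|) := by
  obtain ⟨κ₁, hκ₁, p₁, h₁⟩ := almost_inv_sq k ε hε
  obtain ⟨κ₂, hκ₂, p₂, h₂⟩ := gp_sq k ε hε
  obtain ⟨κ₃, hκ₃, p₃, h₃⟩ := sub_sq ε hε
  set κ := min κ₁ (min κ₂ κ₃) with hκdef
  have hκ : 0 < κ := lt_min hκ₁ (lt_min hκ₂ hκ₃)
  have k1 : κ ≤ κ₁ := min_le_left _ _
  have k2 : κ ≤ κ₂ := (min_le_right _ _).trans (min_le_left _ _)
  have k3 : κ ≤ κ₃ := (min_le_right _ _).trans (min_le_right _ _)
  have ev : ∀ᶠ p : ℕ in Filter.atTop, 0 ≤ Real.log (Real.log (Real.log (Real.log p))) ∧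
      0 ≤ Real.log (p : ℝ) := by
    have t1 : Filter.Tendsto (fun p : ℕ => Real.log (p : ℝ)) Filter.atTop Filter.atTop :=
      Real.tendsto_log_atTop.comp tendsto_natCast_atTop_atTop
    have t2 : Filter.Tendsto (fun p : ℕ => Real.log (Real.log (Real.log (Real.log (p : ℝ)))))
        Filter.atTop Filter.atTop :=
      Real.tendsto_log_atTop.comp (Real.tendsto_log_atTop.comp (Real.tendsto_log_atTop.comp t1))
    exact (t2.eventually_ge_atTop 0).and (t1.eventually_ge_atTop 0)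
  obtain ⟨p₄, hp₄⟩ := Filter.eventually_atTop.1 ev
  refine ⟨κ, hκ, max (max p₁ p₂) (max p₃ p₄), ?_⟩
  intro p _ hp R hR
  have q1 : p₁ ≤ p := ((le_max_left _ _).trans (le_max_left _ _)).trans hp
  have q2 : p₂ ≤ p := ((le_max_right _ _).trans (le_max_left _ _)).trans hp
  have q3 : p₃ ≤ p := ((le_max_left _ _).trans (le_max_right _ _)).trans hp
  have q4 : p₄ ≤ p := ((le_max_right _ _).trans (le_max_right _ _)).trans hp
  obtain ⟨l4, l1⟩ := hp₄ p q4
  set f : ℝ := Real.log p * (Real.log (Real.log p)) ^ 2 *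
      Real.log (Real.log (Real.log (Real.log p))) / (Real.log (Real.log (Real.log p))) ^ 2 with hf
  have hf0 : 0 ≤ f := by
    rw [hf]
    positivity
  have hff : f = Pool.Agent.H256R2.SC.ff p := rfl
  have r1 : R ≤ κ₁ * Pool.Agent.H256R2.SC.ff p := by
    rw [← hff]
    exact hR.trans (mul_le_mul_of_nonneg_right k1 hf0)
  have r2 : R ≤ κ₂ * Pool.Agent.H256R2.SC.ff p := by
    rw [← hff]
    exact hR.trans (mul_le_mul_of_nonneg_right k2 hf0)
  have r3 : R ≤ κ₃ * Pool.Agent.H256R2.SC.ff p := by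
    rw [← hff]
    exact hR.trans (mul_le_mul_of_nonneg_right k3 hf0)
  refine ⟨?_, ?_, ?_⟩
  · intro S B F hF1 hF hle hSB hB
    obtain ⟨x, hx, hx2⟩ := h₁ p q1 S B F hF1 hF hSB hle hB
    exact ⟨x, hx, fun q hq => ⟨lt_of_le_of_lt r1 (hx2 q hq).1, lt_of_le_of_lt r1 (hx2 q hq).2⟩⟩
  · intro θ a M F hF1 hF hθ ha hM hMp
    obtain ⟨l, hl, hl2⟩ := h₂ p q2 θ a M F hθ ha hM hMp hF1 hF
    exact ⟨l, hl, fun q hq => ⟨lt_of_le_of_lt r2 (hl2 q hq).1, lt_of_le_of_lt r2 (hl2 q hq).2⟩⟩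
  · intro θ a b hθ ha hT
    obtain ⟨l, hl, hl2⟩ := h₃ p q3 θ a b hθ ha hT
    exact ⟨l, hl, fun q hq => ⟨lt_of_le_of_lt r3 (hl2 q hq).1, lt_of_le_of_lt r3 (hl2 q hq).2⟩⟩

end Pool.Agent.Results.MP_73869e_nt.SquaresOfResidues
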